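import Mathlib

set_option autoImplicit false

namespace Pool.Agent.Results.MP_3553b5_co.Full

/-- `K` is a proper colouring of the Hamming-distance graph `H_q(n,d)`. -/
def Proper {q n k : ℕ} (d : ℕ) (K : (Fin n → ZMod q) → Fin k) : Prop :=
  ∀ x y, d ≤ hammingDist x y → K x ≠ K y

def C : List ℕ := [293, 450, 473, 525, 643, 67, 565, 671, 144, 477, 687, 381, 11, 567, 188, 545,
  205, 321, 596, 573, 62, 250, 270, 28, 606, 558, 490, 200, 100, 380, 683, 361, 364, 177, 345, 218,
  538, 21, 312, 423, 440, 484, 44, 580, 511, 158, 638, 648, 316, 625, 497, 27, 162, 247, 86, 406,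
  367, 487, 254, 492, 682, 219, 336, 726, 712, 179, 438, 614, 721, 526, 178, 358, 132, 142, 350,
  74, 113, 211, 409]

def cw (c : ℕ) : Fin 6 → ZMod 3 := fun i => ((c / 3 ^ (i : ℕ) : ℕ) : ZMod 3)

def near (a b c d e f : Fin 3) (k : ℕ) : Bool :=
  (if k % 3 = a then 0 else 1) + (if k / 3 % 3 = b then 0 else 1) +
  (if k / 9 % 3 = c then 0 else 1) + (if k / 27 % 3 = d then 0 else 1) +
  (if k / 81 % 3 = e then 0 else 1) + (if k / 243 % 3 = f then 0 else 1) ≤ 1

lemma cov0 : ∀ a b c d e f : Fin 3, C.any (near a b c d e f) = true := by decide +kernel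

lemma cast_eq (k : ℕ) (a : ZMod 3) : a ≠ (k : ZMod 3) ↔ ¬ k % 3 = a.val := by
  rw [← ZMod.val_natCast, (ZMod.val_injective 3).eq_iff, ne_comm]

lemma cov (x : Fin 6 → ZMod 3) : ∃ j : Fin 79, hammingDist x (cw (C.getD j 0)) ≤ 1 := by
  obtain ⟨k, hk, h⟩ := List.any_eq_true.1 (cov0 (x 0) (x 1) (x 2) (x 3) (x 4) (x 5))
  obtain ⟨j, hj, rfl⟩ := List.getElem_of_mem hk
  refine ⟨⟨j, hj⟩, ?_⟩
  rw [List.getD_eq_getElem _ _ hj, hammingDist, Finset.card_filter, Fin.sum_univ_six]
  simp only [cw, fun i k => cast_eq k (x i), ite_not]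
  simp only [near, decide_eq_true_eq] at h
  simpa using! h

theorem result : ∃ q n d : ℕ, 3 ≤ q ∧ 2 ≤ d ∧ d ≤ n ∧
    ∃ K : (Fin n → ZMod q) → Fin (q ^ (n - d + 1)), Proper d K ∧
      ∃ x y, d ≤ hammingDist x y ∧ Proper d (K ∘ Equiv.swap x y) := by
  choose c hc using cov
  have key : ∀ a b : Fin 6 → ZMod 3, Proper (k := 81) 3 fun z =>
      if z = a then 79 else if z = b then 80 else ⟨c z, by omega⟩ := fun a b x y h e => by
    have hxy : x ≠ y := fun e => by simp [e] at h
    have h1 := (c x).2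
    have h2 := (c y).2
    simp only [Fin.ext_iff] at e
    split_ifs at e <;> try (first | (simp_all; done) | (simp at e; omega))
    have h3 := hammingDist_triangle_right x y (cw (C.getD (c x) 0))
    have h4 := hc x
    have h5 := hc y
    rw [← show (c x : ℕ) = c y from e] at h5
    omega
  refine ⟨3, 6, 3, le_rfl, by norm_num, by norm_num, _, key 0 1, 0, 1, by decide, ?_⟩
  refine Eq.subst (motive := Proper (k := 81) 3) (funext fun z => ?_) (key 1 0)
  by_cases h0 : z = 0
  · subst h0; simp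
  by_cases h1 : z = 1
  · subst h1; simp
  simp [Equiv.swap_apply_of_ne_of_ne h0 h1, h0, h1]

end Pool.Agent.Results.MP_3553b5_co.Full
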